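import Pool.Agent.TH102.DP.Absorb
import Pool.Agent.TH603.Sur.Rows

/-! Absorbing several multiple points into the left ends of the rows. -/

namespace Pool.Agent.TH151.N13

open Finset Pool.Agent.TH176.Nag Pool.Agent.TH603.Sur Pool.Agent.TH102.DP

/-- rows `A y < x ≤ C y`, `y ≥ 0` -/
def Rg (A C : ℤ → ℤ) : Set (ℤ × ℤ) := {p | 0 ≤ p.2 ∧ A p.2 < p.1 ∧ p.1 ≤ C p.2}

/-- the number of points taken from the row `y` by points of multiplicities `E i` -/
def Ab {κ : Type} [Fintype κ] (E : κ → ℕ) (y : ℤ) : ℤ := ∑ i, max ((E i : ℤ) - y) 0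

theorem Ab_nonneg {κ : Type} [Fintype κ] (E : κ → ℕ) (y : ℤ) : 0 ≤ Ab E y :=
  sum_nonneg fun _ _ => le_max_right _ _

theorem Rg_mono {A A' C : ℤ → ℤ} (h : ∀ y, A y ≤ A' y) : Rg A' C ⊆ Rg A C := by
  rintro p ⟨h1, h2, h3⟩
  exact ⟨h1, lt_of_le_of_lt (h _) h2, h3⟩

/-- one point, emptiness -/
theorem Emp_abs1 {ι : Type} {w : ι → ℕ} (v : ℕ) (A C : ℤ → ℤ) (hfin : (Rg A C).Finite)
    (h : Emp w (Rg (fun y => A y + max ((v : ℤ) - y) 0) C)) :
    Emp (fun o : Option ι => o.elim v w) (Rg A C) := by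
  refine Emp_absorb v hfin (fun m hm => hm.1) (fun y => A y + 1) (fun m hm => ?_) (fun m hm hv => ?_) h
  · have := hm.2.1
    omega
  · obtain ⟨h1, h2, h3⟩ := hm
    refine ⟨h1, ?_, h3⟩
    simp only at hv ⊢
    rcases le_total ((v : ℤ) - m.2) 0 with h4 | h4
    · rw [max_eq_right h4]; omega
    · rw [max_eq_left h4]; omega

/-- several points, emptiness -/
theorem Emp_absB {κ ι : Type} [Fintype κ] {w : ι → ℕ} :
    ∀ (E : κ → ℕ) (A C : ℤ → ℤ), (Rg A C).Finite → Emp w (Rg (fun y => A y + Ab E y) C) →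
    Emp (Sum.elim E w) (Rg A C) := by
  refine Fintype.induction_empty_option (P := fun κ _ => ∀ (E : κ → ℕ) (A C : ℤ → ℤ), (Rg A C).Finite →
    Emp w (Rg (fun y => A y + Ab E y) C) → Emp (Sum.elim E w) (Rg A C)) ?_ ?_ ?_ κ
  · intro α β _ e ih E A C hfin h
    let _ : Fintype α := Fintype.ofEquiv β e.symm
    have e1 : ∀ y, Ab (fun a => E (e a)) y = Ab E y := by
      intro y
      unfold Ab
      exact Fintype.sum_equiv e _ _ fun a => rfl
    have h2 := ih (fun a => E (e a)) A C hfin (by simpa only [e1] using h)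
    refine Emp_emb (Sum.map e id) ?_ ?_ h2
    · exact Sum.map_injective.2 ⟨e.injective, Function.injective_id⟩
    · rintro (a | i) <;> simp
  · intro E A C hfin h
    refine Emp_emb Sum.inr Sum.inr_injective (fun i => le_rfl) (h.mono (Rg_mono ?_))
    intro y
    simp [Ab]
  · intro α _ ih E A C hfin h
    have h1 : Emp (Sum.elim (fun a => E (some a)) w)
        (Rg (fun y => A y + max ((E none : ℤ) - y) 0) C) := by
      refine ih _ _ C (hfin.subset (Rg_mono fun y => ?_)) (h.mono (Rg_mono fun y => ?_))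
      · have := le_max_right ((E none : ℤ) - y) 0
        omega
      · simp only [Ab, Fintype.sum_option]
        omega
    have h2 := Emp_abs1 (E none) A C hfin h1
    refine Emp_emb (fun o : Option (α ⊕ ι) => o.elim (Sum.inl none) (Sum.map some id)) ?_ ?_ h2
    · rintro (_ | (a | i)) (_ | (b | j)) hab <;> simp_all
    · rintro (_ | (a | i)) <;> simp

/-- one point, independence -/
theorem Sur_abs1 {ι : Type} [Fintype ι] {w : ι → ℕ} (v : ℕ) (A C : ℤ → ℤ)
    (hrow : ∀ y : ℤ, 0 ≤ y → y < v → A y + (v - y) ≤ C y)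
    (h : Sur w (Rg (fun y => A y + max ((v : ℤ) - y) 0) C)) :
    Sur (fun o : Option ι => o.elim v w) (Rg A C) := by
  classical
  obtain ⟨T, h1, h2, h3⟩ := h
  let U : Finset (ℤ × ℤ) := (range v).biUnion fun y =>
    (range (v - y)).image fun j : ℕ => ((A y + 1 + j, (y : ℤ)) : ℤ × ℤ)
  have hU : ∀ p : ℤ × ℤ, p ∈ U ↔ 0 ≤ p.2 ∧ p.2 < v ∧ A p.2 < p.1 ∧ p.1 ≤ A p.2 + (v - p.2) := by
    rintro ⟨a, b⟩
    simp only [U, mem_biUnion, mem_image, mem_range, Prod.mk.injEq]
    constructor
    · rintro ⟨y, hy, j, hj, rfl, rfl⟩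
      refine ⟨by omega, by omega, by omega, by omega⟩
    · rintro ⟨g1, g2, g3, g4⟩
      obtain ⟨y, rfl⟩ := Int.eq_ofNat_of_zero_le g1
      exact ⟨y, by omega, (a - A y - 1).toNat, by omega, by omega, rfl⟩
  have hcU : U.card = (v + 1).choose 2 := by
    rw [card_biUnion]
    · have e1 : ∀ y ∈ range v, ((range (v - y)).image fun j : ℕ => ((A y + 1 + j, (y : ℤ)) : ℤ × ℤ)).card =
          v - y := by
        intro y _
        rw [card_image_of_injective, card_range]
        intro j j' hjj
        have := (Prod.mk.inj hjj).1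
        omega
      rw [sum_congr rfl e1]
      exact sum_range_sub _ _ le_rfl
    · intro y _ y' _ hne
      rw [Function.onFun, disjoint_left]
      intro m hm hm'
      rw [mem_image] at hm hm'
      obtain ⟨j, _, rfl⟩ := hm
      obtain ⟨j', _, h⟩ := hm'
      apply hne
      have := (Prod.mk.inj h).2
      omega
  have hTS : ∀ p ∈ T, p ∈ Rg (fun y => A y + max ((v : ℤ) - y) 0) C := fun p hp => h1 (mem_coe.2 hp)
  have hd : Disjoint T U := by
    rw [disjoint_left]
    intro p hp hp'
    obtain ⟨g1, g2, g3⟩ := hTS p hp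
    obtain ⟨g4, g5, g6, g7⟩ := (hU p).1 hp'
    simp only at g2
    have := le_max_left ((v : ℤ) - p.2) 0
    omega
  refine ⟨T ∪ U, ?_, ?_, ?_⟩
  · intro p hp
    rw [mem_coe, mem_union] at hp
    rcases hp with hp | hp
    · exact Rg_mono (fun y => by have := le_max_right ((v : ℤ) - y) 0; omega) (hTS p hp)
    · obtain ⟨g4, g5, g6, g7⟩ := (hU p).1 hp
      exact ⟨g4, g6, g7.trans (hrow _ g4 g5)⟩
  · rw [card_union_of_disjoint hd, h2, hcU]
    unfold Pool.Agent.TH603.Sur.cond
    rw [Fintype.sum_option]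
    simp only [Option.elim_none, Option.elim_some]
    omega
  · refine Emp_absorb v (T ∪ U).finite_toSet ?_ (fun y => A y + 1) ?_ ?_ h3
    · intro p hp
      rw [mem_coe, mem_union] at hp
      rcases hp with hp | hp
      · exact (hTS p hp).1
      · exact ((hU p).1 hp).1
    · intro p hp
      rw [mem_coe, mem_union] at hp
      rcases hp with hp | hp
      · obtain ⟨g1, g2, g3⟩ := hTS p hp
        simp only at g2
        have := le_max_right ((v : ℤ) - p.2) 0
        omega
      · have := ((hU p).1 hp).2.2.1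
        omega
    · intro p hp hv
      rw [mem_coe, mem_union] at hp
      rcases hp with hp | hp
      · exact mem_coe.2 hp
      · obtain ⟨g4, g5, g6, g7⟩ := (hU p).1 hp
        omega

/-- several points, independence -/
theorem Sur_absB {κ ι : Type} [Fintype κ] [Fintype ι] {w : ι → ℕ} :
    ∀ (E : κ → ℕ) (A C : ℤ → ℤ), (∀ y : ℤ, 0 ≤ y → 0 < Ab E y → A y + Ab E y ≤ C y) →
    Sur w (Rg (fun y => A y + Ab E y) C) → Sur (Sum.elim E w) (Rg A C) := by
  refine Fintype.induction_empty_option (P := fun κ _ => ∀ (E : κ → ℕ) (A C : ℤ → ℤ),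
    (∀ y : ℤ, 0 ≤ y → 0 < Ab E y → A y + Ab E y ≤ C y) →
    Sur w (Rg (fun y => A y + Ab E y) C) → Sur (Sum.elim E w) (Rg A C)) ?_ ?_ ?_ κ
  · intro α β _ e ih E A C hrow h
    let _ : Fintype α := Fintype.ofEquiv β e.symm
    have e1 : ∀ y, Ab (fun a => E (e a)) y = Ab E y := by
      intro y
      unfold Ab
      exact Fintype.sum_equiv e _ _ fun a => rfl
    have h2 := ih (fun a => E (e a)) A C (by simpa only [e1] using hrow)
      (by simpa only [e1] using h)
    obtain ⟨T, g1, g2, g3⟩ := h2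
    refine ⟨T, g1, ?_, ?_⟩
    · rw [g2]
      unfold Pool.Agent.TH603.Sur.cond
      rw [Fintype.sum_sum_type, Fintype.sum_sum_type]
      simp only [Sum.elim_inl, Sum.elim_inr]
      congr 1
      exact Fintype.sum_equiv e _ _ fun a => rfl
    · refine Emp_emb (Sum.map e id) ?_ ?_ g3
      · exact Sum.map_injective.2 ⟨e.injective, Function.injective_id⟩
      · rintro (a | i) <;> simp
  · intro E A C hrow h
    have e0 : ∀ y, Ab E y = 0 := fun y => by simp [Ab]
    simp only [e0, add_zero] at h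
    obtain ⟨T, g1, g2, g3⟩ := h
    refine ⟨T, g1, ?_, ?_⟩
    · rw [g2]
      unfold Pool.Agent.TH603.Sur.cond
      rw [Fintype.sum_sum_type]
      simp
    · exact Emp_emb Sum.inr Sum.inr_injective (fun i => le_rfl) g3
  · intro α _ ih E A C hrow h
    have e1 : ∀ y, Ab E y = max ((E none : ℤ) - y) 0 + Ab (fun a => E (some a)) y := by
      intro y
      simp only [Ab, Fintype.sum_option]
    have h1 : Sur (Sum.elim (fun a => E (some a)) w)
        (Rg (fun y => A y + max ((E none : ℤ) - y) 0) C) := by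
      refine ih _ _ C (fun y hy hpos => ?_) ?_
      · have h2 := hrow y hy (by
          rw [e1]
          have := le_max_right ((E none : ℤ) - y) 0
          omega)
        rw [e1] at h2
        omega
      · have e2 : (fun y => A y + max ((E none : ℤ) - y) 0 + Ab (fun a => E (some a)) y) =
            fun y => A y + Ab E y := by
          funext y; rw [e1]; ring
        rw [e2]; exact h
    have h2 := Sur_abs1 (E none) A C (fun y hy hv => by
      have h3 := Ab_nonneg (fun a => E (some a)) y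
      have h4 : max ((E none : ℤ) - y) 0 = E none - y := max_eq_left (by omega)
      have h5 := hrow y hy (by rw [e1, h4]; omega)
      rw [e1, h4] at h5
      omega) h1
    obtain ⟨T, g1, g2, g3⟩ := h2
    refine ⟨T, g1, ?_, ?_⟩
    · rw [g2]
      unfold Pool.Agent.TH603.Sur.cond
      simp only [Fintype.sum_sum_type, Fintype.sum_option, Sum.elim_inl, Sum.elim_inr,
        Option.elim_none, Option.elim_some]
      ring
    · refine Emp_emb (fun o : Option (α ⊕ ι) => o.elim (Sum.inl none) (Sum.map some id)) ?_ ?_ g3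
      · rintro (_ | (a | i)) (_ | (b | j)) hab <;> simp_all
      · rintro (_ | (a | i)) <;> simp

end Pool.Agent.TH151.N13
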